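import Mathlib

/-!
# Berger-Wang formulas for minimax joint spectral radii: all four identities fail

There are finite nonempty sets `𝓐` (four matrices) and `𝓑` (two matrices) of real `6 × 6`
matrices such that, for every `n ≥ 1`, the max-min and min-max quantities built from the spectral
radius vanish, whereas the ones built from any norm stay bounded below by a positive constant.
-/

open Filter Topology Matrix
open scoped ENNReal

namespace Pool.Agent.Results.MP_36f7ac_an.AllFourFail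

/-- The product `A_n B_n ⋯ A_1 B_1`. -/
def word {N : ℕ} : (n : ℕ) → (Fin n → Matrix (Fin N) (Fin N) ℝ) →
    (Fin n → Matrix (Fin N) (Fin N) ℝ) → Matrix (Fin N) (Fin N) ℝ
  | 0, _, _ => 1
  | n + 1, A, B => A (Fin.last n) * B (Fin.last n) *
      word n (fun i => A i.castSucc) (fun i => B i.castSucc)

/-- The spectral radius of a real matrix (largest modulus of a complex eigenvalue). -/
noncomputable def rho {N : ℕ} (X : Matrix (Fin N) (Fin N) ℝ) : ℝ :=
  (spectralRadius ℂ (X.map (algebraMap ℝ ℂ))).toReal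

/-- `max_{A_1,…,A_n ∈ 𝓐} min_{B_1,…,B_n ∈ 𝓑} f (A_n B_n ⋯ A_1 B_1)`. -/
noncomputable def maxmin {N : ℕ} (f : Matrix (Fin N) (Fin N) ℝ → ℝ)
    (𝓐 𝓑 : Finset (Matrix (Fin N) (Fin N) ℝ)) (n : ℕ) : ℝ :=
  ⨆ A : Fin n → 𝓐, ⨅ B : Fin n → 𝓑, f (word n (fun i => (A i).1) (fun i => (B i).1))

/-- `min_{B_1,…,B_n ∈ 𝓑} max_{A_1,…,A_n ∈ 𝓐} f (A_n B_n ⋯ A_1 B_1)`. -/
noncomputable def minmax {N : ℕ} (f : Matrix (Fin N) (Fin N) ℝ → ℝ)
    (𝓐 𝓑 : Finset (Matrix (Fin N) (Fin N) ℝ)) (n : ℕ) : ℝ :=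
  ⨅ B : Fin n → 𝓑, ⨆ A : Fin n → 𝓐, f (word n (fun i => (A i).1) (fun i => (B i).1))

/-- `limsup_n u_n^{1/n}`. -/
noncomputable def limsupRoot (u : ℕ → ℝ) : ℝ≥0∞ :=
  limsup (fun n : ℕ => ENNReal.ofReal (u n ^ (1 / (n : ℝ)))) atTop

/-- `liminf_n u_n^{1/n}`. -/
noncomputable def liminfRoot (u : ℕ → ℝ) : ℝ≥0∞ :=
  liminf (fun n : ℕ => ENNReal.ofReal (u n ^ (1 / (n : ℝ)))) atTop

/-! ### The matrices -/

/-- `(p₀, p₁, p₂) ↦ (p₀, 5 p₁ + a p₀, 25 p₂ + 10 a p₁ + a² p₀)` on `(ℝ²)³`. -/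
def X (a : ℝ) : Matrix (Fin 6) (Fin 6) ℝ :=
  !![1, 0, 0, 0, 0, 0;
     0, 1, 0, 0, 0, 0;
     a, 0, 5, 0, 0, 0;
     0, a, 0, 5, 0, 0;
     a ^ 2, 0, 10 * a, 0, 25, 0;
     0, a ^ 2, 0, 10 * a, 0, 25]

/-- `(p₀, p₁, p₂) ↦ (q, w q, w² q)` with `q = (p₀² - p₁¹, p₁² - p₂¹)` on `(ℝ²)³`. -/
def Y (w : ℝ) : Matrix (Fin 6) (Fin 6) ℝ :=
  !![0, 1, -1, 0, 0, 0;
     0, 0, 0, 1, -1, 0;
     0, w, -w, 0, 0, 0;
     0, 0, 0, w, -w, 0;
     0, w ^ 2, -w ^ 2, 0, 0, 0;
     0, 0, 0, w ^ 2, -w ^ 2, 0]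

lemma X_mul_Y (a w : ℝ) : X a * Y w = Y (5 * w + a) := by
  ext i j
  fin_cases i <;> fin_cases j <;>
    simp [X, Y, Matrix.mul_apply, Fin.sum_univ_succ] <;> ring

lemma Y_cube (w : ℝ) : Y w * Y w * Y w = 0 := by
  ext i j
  fin_cases i <;> fin_cases j <;>
    simp [Y, Matrix.mul_apply, Fin.sum_univ_succ] <;> ring

/-- The letter `a ∈ {0,1,2,3}` stands for the matrix `X (a+1)`. -/
def XA (a : Fin 4) : Matrix (Fin 6) (Fin 6) ℝ := X ((a : ℕ) + 1)

/-- The two choices of the second player. -/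
def TB (b : Bool) : Matrix (Fin 6) (Fin 6) ℝ := if b then Y 0 else 1

/-! ### Vectors -/

/-- The vector `(q, w q, w² q)`. -/
def vec (q₀ q₁ w : ℝ) : Fin 6 → ℝ := ![q₀, q₁, w * q₀, w * q₁, w ^ 2 * q₀, w ^ 2 * q₁]

lemma X_mulVec (a q₀ q₁ w : ℝ) : X a *ᵥ vec q₀ q₁ w = vec q₀ q₁ (5 * w + a) := by
  ext i
  fin_cases i <;> simp [X, vec, Matrix.mulVec, dotProduct, Fin.sum_univ_succ] <;> ring

lemma Y0_mulVec (q₀ q₁ w : ℝ) :
    Y 0 *ᵥ vec q₀ q₁ w = vec (q₁ - w * q₀) (w * (q₁ - w * q₀)) 0 := by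
  ext i
  fin_cases i <;> simp [Y, vec, Matrix.mulVec, dotProduct, Fin.sum_univ_succ] <;> ring

/-- The vector `(0, (0,m), (0, 2 w m))`. -/
def vec0 (m w : ℝ) : Fin 6 → ℝ := ![0, 0, 0, m, 0, 2 * w * m]

lemma X_mulVec0 (a m w : ℝ) : X a *ᵥ vec0 m w = vec0 (5 * m) (5 * w + a) := by
  ext i
  fin_cases i <;> simp [X, vec0, Matrix.mulVec, dotProduct, Fin.sum_univ_succ] <;> ring

lemma Y0_mulVec0 (m w : ℝ) : Y 0 *ᵥ vec0 m w = vec 0 m 0 := by
  ext i
  fin_cases i <;> simp [Y, vec, vec0, Matrix.mulVec, dotProduct, Fin.sum_univ_succ]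

/-! ### Values of words -/

/-- Bijective-type base-5 value of a word written with its last letter first. -/
def val : List (Fin 4) → ℕ
  | [] => 0
  | a :: l => 5 * val l + ((a : ℕ) + 1)

lemma val_inj : ∀ l l' : List (Fin 4), val l = val l' → l = l'
  | [], [], _ => rfl
  | [], a :: l', h => by simp [val] at h
  | a :: l, [], h => by simp [val] at h
  | a :: l, b :: l', h => by
    simp only [val] at h
    have ha := a.2
    have hb := b.2
    have h1 : (a : ℕ) = b := by omega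
    have h2 : val l = val l' := by omega
    rw [val_inj l l' h2, Fin.ext h1]

/-- Square-free words. -/
def SqFree (l : List (Fin 4)) : Prop := ∀ u v w : List (Fin 4), l = u ++ (v ++ (v ++ w)) → v = []

lemma SqFree.suffix {l m : List (Fin 4)} (h : SqFree (l ++ m)) : SqFree m := by
  intro u v w huv
  exact h (l ++ u) v w (by rw [huv]; simp)

lemma SqFree.tail {a : Fin 4} {m : List (Fin 4)} (h : SqFree (a :: m)) : SqFree m :=
  SqFree.suffix (l := [a]) (by simpa using h)

/-- The list of the letters of a word, last letter first. -/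
def lst : (n : ℕ) → (Fin n → Fin 4) → List (Fin 4)
  | 0, _ => []
  | n + 1, x => x (Fin.last n) :: lst n (fun i => x i.castSucc)

lemma exists_lst : ∀ (n : ℕ) (l : List (Fin 4)), l.length = n → ∃ x, lst n x = l
  | 0, l, h => ⟨Fin.elim0, by
      rw [List.length_eq_zero_iff] at h; rw [h]; rfl⟩
  | n + 1, [], h => by simp at h
  | n + 1, a :: l, h => by
    obtain ⟨x, hx⟩ := exists_lst n l (by simpa using h)
    refine ⟨Fin.snoc x a, ?_⟩
    simp [lst, hx]

/-- The invariant: the three possible shapes of the vector after processing a word. -/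
lemma invariant : ∀ (n : ℕ) (x : Fin n → Fin 4) (t : Fin n → Bool), SqFree (lst n x) →
    (∃ (m : ℕ) (w : ℝ), 0 < m ∧
      word n (fun i => XA (x i)) (fun i => TB (t i)) *ᵥ vec0 1 0 = vec0 m w) ∨
    (∃ (m : ℕ) (cur z : List (Fin 4)), 0 < m ∧ cur ≠ [] ∧ lst n x = cur ++ z ∧
      word n (fun i => XA (x i)) (fun i => TB (t i)) *ᵥ vec0 1 0 = vec 0 m (val cur)) ∨
    (∃ (c : ℤ) (cur prev z : List (Fin 4)), c ≠ 0 ∧ cur ≠ [] ∧ lst n x = cur ++ (prev ++ z) ∧
      word n (fun i => XA (x i)) (fun i => TB (t i)) *ᵥ vec0 1 0 =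
        vec c (c * val prev) (val cur)) := by
  intro n
  induction n with
  | zero =>
    intro x t _
    left
    exact ⟨1, 0, one_pos, by simp [word]⟩
  | succ n ih =>
    intro x t hsq
    have hsq' : SqFree (lst n (fun i => x i.castSucc)) := SqFree.tail hsq
    have key : ∀ v : Fin 6 → ℝ, word n (fun i => XA (x i.castSucc)) (fun i => TB (t i.castSucc))
        *ᵥ vec0 1 0 = v →
        word (n + 1) (fun i => XA (x i)) (fun i => TB (t i)) *ᵥ vec0 1 0 =
          XA (x (Fin.last n)) *ᵥ (TB (t (Fin.last n)) *ᵥ v) := by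
      intro v hv
      rw [word, ← hv, Matrix.mulVec_mulVec, Matrix.mulVec_mulVec, Matrix.mul_assoc]
    rcases ih (fun i => x i.castSucc) (fun i => t i.castSucc) hsq' with
      ⟨m, w, hm, h⟩ | ⟨m, cur, z, hm, hc, hl, h⟩ | ⟨c, cur, prev, z, hc0, hc, hl, h⟩
    · have h2 := key _ h
      cases htl : t (Fin.last n) with
      | false =>
        left
        refine ⟨5 * m, 5 * w + ((x (Fin.last n) : ℕ) + 1), by omega, ?_⟩
        rw [h2, htl]
        simp [TB, XA, X_mulVec0]
      | true =>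
        right; left
        refine ⟨m, [x (Fin.last n)], lst n (fun i => x i.castSucc), hm, by simp, by simp [lst], ?_⟩
        rw [h2, htl]
        simp [TB, XA, Y0_mulVec0, X_mulVec, val]
    · have h2 := key _ h
      cases htl : t (Fin.last n) with
      | false =>
        right; left
        refine ⟨m, x (Fin.last n) :: cur, z, hm, by simp, by simp [lst, hl], ?_⟩
        rw [h2, htl]
        simp [TB, XA, X_mulVec, val]
      | true =>
        right; right
        refine ⟨m, [x (Fin.last n)], cur, z, by omega, by simp, by simp [lst, hl], ?_⟩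
        rw [h2, htl]
        simp [TB, XA, X_mulVec, Y0_mulVec, val]
        ring_nf
    · have h2 := key _ h
      cases htl : t (Fin.last n) with
      | false =>
        right; right
        refine ⟨c, x (Fin.last n) :: cur, prev, z, hc0, by simp, by simp [lst, hl], ?_⟩
        rw [h2, htl]
        simp [TB, XA, X_mulVec, val]
      | true =>
        right; right
        have hne : (val prev : ℤ) - val cur ≠ 0 := by
          intro h0
          have h1 : val prev = val cur := by omega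
          have h3 := val_inj _ _ h1
          rw [h3] at hl
          exact hc (hsq' [] cur z (by simpa using hl))
        refine ⟨c * (val prev - val cur), [x (Fin.last n)], cur, prev ++ z, mul_ne_zero hc0 hne,
          by simp, by simp [lst, hl], ?_⟩
        rw [h2, htl]
        simp only [TB, XA, X_mulVec, Y0_mulVec, val, if_true]
        push_cast
        congr 1 <;> ring

lemma word_entry (n : ℕ) (x : Fin n → Fin 4) (t : Fin n → Bool) (hsq : SqFree (lst n x)) :
    ∃ i j, 1 ≤ |word n (fun i => XA (x i)) (fun i => TB (t i)) i j| := by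
  have hv : (vec0 1 0 : Fin 6 → ℝ) = Pi.single 3 1 := by
    ext i; fin_cases i <;> simp [vec0]
  have hcol : ∀ i, word n (fun i => XA (x i)) (fun i => TB (t i)) i 3 =
      (word n (fun i => XA (x i)) (fun i => TB (t i)) *ᵥ vec0 1 0) i := by
    intro i
    rw [hv, Matrix.mulVec_single_one]
    rfl
  rcases invariant n x t hsq with
      ⟨m, w, hm, h⟩ | ⟨m, cur, z, hm, hc, hl, h⟩ | ⟨c, cur, prev, z, hc0, hc, hl, h⟩
  · refine ⟨3, 3, ?_⟩
    rw [hcol, h]
    simp only [vec0]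
    have : (1 : ℝ) ≤ m := by exact_mod_cast hm
    simpa using this
  · refine ⟨1, 3, ?_⟩
    rw [hcol, h]
    simp only [vec]
    have : (1 : ℝ) ≤ m := by exact_mod_cast hm
    simpa using this
  · refine ⟨0, 3, ?_⟩
    rw [hcol, h]
    simp only [vec]
    have : (1 : ℝ) ≤ |(c : ℝ)| := by
      have := Int.one_le_abs hc0
      exact_mod_cast this
    simpa using this

/-! ### Counting square-free words -/

/-- square-free words of length `n` -/
def S (n : ℕ) : Set (List (Fin 4)) := {l | l.length = n ∧ SqFree l}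

lemma S_finite (n : ℕ) : (S n).Finite :=
  (List.finite_length_eq (Fin 4) n).subset (fun _ h => h.1)

/-- words of length `n+1` beginning with a square of a word of length `j+1` -/
def Bad (n j : ℕ) : Set (List (Fin 4)) :=
  {m | m.length = n + 1 ∧ ∃ v w, m = v ++ (v ++ w) ∧ v.length = j + 1 ∧ SqFree (v ++ w)}

lemma Bad_card (n j : ℕ) (hj : j ≤ n) : (Bad n j).ncard ≤ (S (n - j)).ncard := by
  refine Set.ncard_le_ncard_of_injOn (fun m => m.drop (j + 1)) ?_ ?_ (S_finite _)
  · rintro m ⟨hm, v, w, rfl, hv, hs⟩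
    have h1 : (v ++ (v ++ w)).drop (j + 1) = v ++ w := by
      rw [← hv, List.drop_left]
    simp only [h1]
    refine ⟨?_, hs⟩
    simp only [List.length_append] at hm ⊢
    omega
  · rintro m ⟨hm, v, w, rfl, hv, hs⟩ m' ⟨hm', v', w', rfl, hv', hs'⟩ heq
    have h1 : (v ++ (v ++ w)).drop (j + 1) = v ++ w := by
      rw [← hv, List.drop_left]
    have h2 : (v' ++ (v' ++ w')).drop (j + 1) = v' ++ w' := by
      rw [← hv', List.drop_left]
    simp only [h1, h2] at heq
    obtain ⟨h3, h4⟩ := List.append_inj heq (by omega)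
    rw [h3, h4]

lemma ext_subset (n : ℕ) :
    (fun p : Fin 4 × List (Fin 4) => p.1 :: p.2) '' (Set.univ ×ˢ S n) ⊆
      S (n + 1) ∪ ⋃ j ∈ Finset.range (n + 1), Bad n j := by
  rintro _ ⟨⟨a, l⟩, ⟨-, hl, hs⟩, rfl⟩
  by_cases h : SqFree (a :: l)
  · left
    exact ⟨by simp [hl], h⟩
  · right
    simp only [SqFree] at h
    push Not at h
    obtain ⟨u, v, w, huvw, hv⟩ := h
    cases u with
    | cons b u =>
      exfalso
      have : l = u ++ (v ++ (v ++ w)) := by
        simpa using (List.cons.inj huvw).2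
      exact hv (hs u v w this)
    | nil =>
      simp only [List.nil_append] at huvw
      cases v with
      | nil => exact absurd rfl hv
      | cons b v =>
        have hl2 : l = v ++ ((b :: v) ++ w) := by
          simpa using (List.cons.inj huvw).2
        have hs2 : SqFree ((b :: v) ++ w) := by
          rw [hl2] at hs
          exact SqFree.suffix hs
        simp only [Set.mem_iUnion]
        refine ⟨v.length, ?_, ?_, b :: v, w, huvw, by simp, hs2⟩
        · rw [Finset.mem_range]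
          rw [hl2] at hl
          simp only [List.length_append, List.length_cons] at hl
          omega
        · simp [hl]

lemma four_mul (n : ℕ) : 4 * (S n).ncard ≤ (S (n + 1)).ncard +
    ∑ j ∈ Finset.range (n + 1), (S (n - j)).ncard := by
  have hfinB : ∀ j, (Bad n j).Finite := fun j =>
    (List.finite_length_eq (Fin 4) (n + 1)).subset (fun _ h => h.1)
  have h1 : ((fun p : Fin 4 × List (Fin 4) => p.1 :: p.2) '' (Set.univ ×ˢ S n)).ncard =
      4 * (S n).ncard := by
    rw [Set.ncard_image_of_injective, Set.ncard_prod, Set.ncard_univ]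
    · simp
    · rintro ⟨a, l⟩ ⟨b, m⟩ h
      simpa using h
  rw [← h1]
  have hfin : (S (n + 1) ∪ ⋃ j ∈ Finset.range (n + 1), Bad n j).Finite := by
    apply (S_finite _).union
    exact Set.Finite.biUnion (Finset.finite_toSet _) (fun j _ => hfinB j)
  refine (Set.ncard_le_ncard (ext_subset n) hfin).trans ?_
  refine (Set.ncard_union_le _ _).trans ?_
  apply Nat.add_le_add_left
  calc (⋃ j ∈ Finset.range (n + 1), Bad n j).ncard
      ≤ ∑ j ∈ Finset.range (n + 1), (Bad n j).ncard := by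
        exact Finset.set_ncard_biUnion_le _ _
    _ ≤ _ := by
        apply Finset.sum_le_sum
        intro j hj
        exact Bad_card n j (by rw [Finset.mem_range] at hj; omega)

lemma growth (n : ℕ) : (∑ j ∈ Finset.range (n + 1), (S j).ncard) ≤ 2 * (S n).ncard ∧
    0 < (S n).ncard := by
  induction n with
  | zero =>
    constructor
    · simp; omega
    · rw [Set.ncard_pos (S_finite 0)]
      refine ⟨[], rfl, ?_⟩
      intro u v w h
      have := congrArg List.length h
      simp only [List.length_nil, List.length_append] at this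
      exact List.length_eq_zero_iff.mp (by omega)
  | succ n ih =>
    have h := four_mul n
    have h2 : ∑ j ∈ Finset.range (n + 1), (S (n - j)).ncard =
        ∑ j ∈ Finset.range (n + 1), (S j).ncard := by
      have := Finset.sum_range_reflect (fun j => (S j).ncard) (n + 1)
      simpa using this
    rw [Finset.sum_range_succ _ (n + 1)]
    omega

lemma exists_sqFree (n : ℕ) : ∃ l : List (Fin 4), l.length = n ∧ SqFree l := by
  have h := (growth n).2
  rw [Set.ncard_pos (S_finite n)] at h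
  exact h

/-! ### Norms -/

lemma seminorm_bound (ν : Seminorm ℝ (Matrix (Fin 6) (Fin 6) ℝ))
    (hν : ∀ X, ν X = 0 → X = 0) :
    ∃ c : ℝ, 0 < c ∧ ∀ Z : Matrix (Fin 6) (Fin 6) ℝ, (∃ i j, 1 ≤ |Z i j|) → c ≤ ν Z := by
  let ν' : Seminorm ℝ (Fin 6 → Fin 6 → ℝ) := ν.comp (Matrix.ofLinearEquiv ℝ).toLinearMap
  have hν'0 : ∀ Z, ν' Z = ν (Matrix.of Z) := fun Z => rfl
  have hcont : Continuous ν' := by
    have := ν'.convexOn.continuousOn isOpen_univ
    exact continuousOn_univ.mp this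
  have hcomp : IsCompact (Metric.sphere (0 : Fin 6 → Fin 6 → ℝ) 1) := isCompact_sphere _ _
  have hne : (Metric.sphere (0 : Fin 6 → Fin 6 → ℝ) 1).Nonempty := by
    refine ⟨fun _ _ => 1, ?_⟩
    simp
  obtain ⟨Z0, hZ0, hmin⟩ := hcomp.exists_isMinOn hne hcont.continuousOn
  refine ⟨ν' Z0, ?_, ?_⟩
  · refine lt_of_le_of_ne (apply_nonneg _ _) ?_
    intro h0
    have h1 : Matrix.of Z0 = 0 := hν _ (by rw [← hν'0, ← h0])
    have h2 : Z0 = 0 := by
      ext i j
      exact congrFun (congrFun h1 i) j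
    rw [h2] at hZ0
    simp at hZ0
  · rintro Z ⟨i, j, hij⟩
    set W : Fin 6 → Fin 6 → ℝ := Matrix.of.symm Z with hW
    have hn : 1 ≤ ‖W‖ := by
      calc (1 : ℝ) ≤ |Z i j| := hij
        _ = ‖W i j‖ := by rw [Real.norm_eq_abs]; rfl
        _ ≤ ‖W i‖ := norm_le_pi_norm (W i) j
        _ ≤ ‖W‖ := norm_le_pi_norm W i
    have hn0 : 0 < ‖W‖ := by linarith
    have h1 : ν' Z0 ≤ ν' ((‖W‖)⁻¹ • W) := by
      apply hmin
      rw [mem_sphere_zero_iff_norm, norm_smul, norm_inv, norm_norm]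
      field_simp
    have h2 : ν' W = ‖W‖ * ν' ((‖W‖)⁻¹ • W) := by
      rw [map_smul_eq_mul, norm_inv, norm_norm]
      field_simp
    have h3 : ν Z = ν' W := rfl
    rw [h3, h2]
    have h4 : 0 ≤ ν' ((‖W‖)⁻¹ • W) := apply_nonneg _ _
    nlinarith

lemma rho_nonneg {N : ℕ} (Z : Matrix (Fin N) (Fin N) ℝ) : 0 ≤ rho Z := ENNReal.toReal_nonneg

lemma rho_Y (w : ℝ) : rho (Y w) = 0 := by
  have h3 : ((Y w).map (algebraMap ℝ ℂ)) ^ 3 = 0 := by
    have : (Y w).map (algebraMap ℝ ℂ) = (algebraMap ℝ ℂ).mapMatrix (Y w) := rfl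
    rw [this, ← map_pow, pow_succ, pow_two, Y_cube, map_zero]
  have hs : spectralRadius ℂ ((Y w).map (algebraMap ℝ ℂ)) = 0 := by
    rw [spectralRadius]
    simp only [ENNReal.iSup_eq_zero]
    intro k hk
    have h4 := spectrum.pow_mem_pow ((Y w).map (algebraMap ℝ ℂ)) 3 hk
    rw [h3, spectrum.zero_eq] at h4
    have : k = 0 := by simpa using h4
    simp [this]
  rw [rho, hs]
  simp

/-- the four matrices -/
noncomputable def setA : Finset (Matrix (Fin 6) (Fin 6) ℝ) := Finset.univ.image XA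

/-- the two matrices -/
noncomputable def setB : Finset (Matrix (Fin 6) (Fin 6) ℝ) := Finset.univ.image TB

lemma word_first (n : ℕ) (x : Fin (n + 1) → Fin 4) :
    ∃ w, word (n + 1) (fun i => XA (x i)) (fun i => TB (decide (i = 0))) = Y w := by
  induction n with
  | zero =>
    refine ⟨5 * 0 + ((x 0 : ℕ) + 1), ?_⟩
    rw [← X_mul_Y]
    simp [word, XA, TB]
  | succ n ih =>
    obtain ⟨w, hw⟩ := ih (fun i => x i.castSucc)
    refine ⟨5 * w + ((x (Fin.last (n + 1)) : ℕ) + 1), ?_⟩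
    rw [← X_mul_Y, ← hw, word]
    have h0 : decide (Fin.last (n + 1) = 0) = false := by
      simp
    rw [h0]
    have h1 : ∀ i : Fin (n + 1), decide (i.castSucc = 0) = decide (i = 0) := by
      intro i
      simp
    simp only [h1]
    simp [XA, TB]


lemma word_congr {N n : ℕ} {A A' B B' : Fin n → Matrix (Fin N) (Fin N) ℝ}
    (hA : ∀ i, A i = A' i) (hB : ∀ i, B i = B' i) : word n A B = word n A' B' := by
  rw [funext hA, funext hB]

lemma lettersA {n : ℕ} (A : Fin n → setA) : ∃ x : Fin n → Fin 4, ∀ i, (A i).1 = XA (x i) := by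
  have h : ∀ i, ∃ a : Fin 4, (A i).1 = XA a := by
    intro i
    obtain ⟨a, -, ha⟩ := Finset.mem_image.mp (show (A i).1 ∈ Finset.univ.image XA from (A i).2)
    exact ⟨a, ha.symm⟩
  choose x hx using h
  exact ⟨x, hx⟩

lemma lettersB {n : ℕ} (B : Fin n → setB) : ∃ t : Fin n → Bool, ∀ i, (B i).1 = TB (t i) := by
  have h : ∀ i, ∃ a : Bool, (B i).1 = TB a := by
    intro i
    obtain ⟨a, -, ha⟩ := Finset.mem_image.mp (show (B i).1 ∈ Finset.univ.image TB from (B i).2)
    exact ⟨a, ha.symm⟩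
  choose x hx using h
  exact ⟨x, hx⟩

lemma good_A (n : ℕ) : ∃ A : Fin n → setA, ∀ B : Fin n → setB,
    ∃ i j, 1 ≤ |word n (fun i => (A i).1) (fun i => (B i).1) i j| := by
  obtain ⟨l, hl, hs⟩ := exists_sqFree n
  obtain ⟨x, hx⟩ := exists_lst n l hl
  refine ⟨fun i => ⟨XA (x i), Finset.mem_image_of_mem _ (Finset.mem_univ _)⟩, ?_⟩
  intro B
  obtain ⟨t, ht⟩ := lettersB B
  rw [word_congr (fun i => rfl) ht]
  exact word_entry n x t (by rw [hx]; exact hs)

lemma good_B (n : ℕ) (hn : n ≠ 0) : ∃ B : Fin n → setB, ∀ A : Fin n → setA,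
    rho (word n (fun i => (A i).1) (fun i => (B i).1)) = 0 := by
  obtain ⟨k, rfl⟩ := Nat.exists_eq_succ_of_ne_zero hn
  refine ⟨fun i => ⟨TB (decide (i = 0)), Finset.mem_image_of_mem _ (Finset.mem_univ _)⟩, ?_⟩
  intro A
  obtain ⟨x, hx⟩ := lettersA A
  rw [word_congr hx (fun i => rfl)]
  obtain ⟨w, hw⟩ := word_first k x
  exact (congrArg rho hw).trans (rho_Y w)

lemma setA_nonempty : setA.Nonempty := ⟨XA 0, Finset.mem_image_of_mem _ (Finset.mem_univ _)⟩

lemma setB_nonempty : setB.Nonempty := ⟨TB true, Finset.mem_image_of_mem _ (Finset.mem_univ _)⟩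

instance : Nonempty setA := setA_nonempty.to_subtype
instance : Nonempty setB := setB_nonempty.to_subtype

lemma maxmin_ge (f : Matrix (Fin 6) (Fin 6) ℝ → ℝ) (c : ℝ)
    (h : ∀ Z : Matrix (Fin 6) (Fin 6) ℝ, (∃ i j, 1 ≤ |Z i j|) → c ≤ f Z) (n : ℕ) :
    c ≤ maxmin f setA setB n := by
  obtain ⟨A, hA⟩ := good_A n
  refine le_trans ?_ (le_ciSup (Set.finite_range _).bddAbove A)
  exact le_ciInf fun B => h _ (hA B)

lemma minmax_ge (f : Matrix (Fin 6) (Fin 6) ℝ → ℝ) (c : ℝ)
    (h : ∀ Z : Matrix (Fin 6) (Fin 6) ℝ, (∃ i j, 1 ≤ |Z i j|) → c ≤ f Z) (n : ℕ) :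
    c ≤ minmax f setA setB n := by
  obtain ⟨A, hA⟩ := good_A n
  refine le_ciInf fun B => ?_
  exact le_trans (h _ (hA B)) (le_ciSup (f := fun A : Fin n → setA =>
    f (word n (fun i => (A i).1) (fun i => (B i).1))) (Set.finite_range _).bddAbove A)

lemma maxmin_rho (n : ℕ) (hn : n ≠ 0) : maxmin rho setA setB n = 0 := by
  obtain ⟨B, hB⟩ := good_B n hn
  apply le_antisymm
  · refine ciSup_le fun A => ?_
    refine (ciInf_le (Set.finite_range _).bddBelow B).trans ?_
    exact (hB A).le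
  · exact Real.iSup_nonneg fun A => Real.iInf_nonneg fun B => rho_nonneg _

lemma minmax_rho (n : ℕ) (hn : n ≠ 0) : minmax rho setA setB n = 0 := by
  obtain ⟨B, hB⟩ := good_B n hn
  apply le_antisymm
  · refine (ciInf_le (Set.finite_range _).bddBelow B).trans ?_
    exact ciSup_le fun A => (hB A).le
  · exact Real.iInf_nonneg fun B => Real.iSup_nonneg fun A => rho_nonneg _

lemma liminfRoot_ge (u : ℕ → ℝ) (c : ℝ) (hc : 0 < c) (h : ∀ n, c ≤ u n) :
    1 ≤ liminfRoot u := by
  have h1 : Tendsto (fun n : ℕ => ENNReal.ofReal (c ^ (1 / (n : ℝ)))) atTop (𝓝 1) := by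
    have h2 : Tendsto (fun n : ℕ => c ^ (1 / (n : ℝ))) atTop (𝓝 (c ^ (0 : ℝ))) := by
      apply Tendsto.rpow tendsto_const_nhds tendsto_one_div_atTop_nhds_zero_nat
      exact Or.inl hc.ne'
    rw [Real.rpow_zero] at h2
    simpa using ENNReal.tendsto_ofReal h2
  rw [← h1.liminf_eq]
  refine liminf_le_liminf (Eventually.of_forall fun n => ?_)
  apply ENNReal.ofReal_le_ofReal
  exact Real.rpow_le_rpow hc.le (h n) (by positivity)

lemma root_zero (u : ℕ → ℝ) (h : ∀ n, n ≠ 0 → u n = 0) :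
    limsupRoot u = 0 ∧ liminfRoot u = 0 := by
  have h1 : Tendsto (fun n : ℕ => ENNReal.ofReal (u n ^ (1 / (n : ℝ)))) atTop (𝓝 0) := by
    apply tendsto_const_nhds.congr'
    filter_upwards [eventually_gt_atTop 0] with n hn
    rw [h n hn.ne', Real.zero_rpow]
    · simp
    · positivity
  exact ⟨h1.limsup_eq, h1.liminf_eq⟩

/-- There are finite nonempty sets `𝓐`, `𝓑` of real `6 × 6` matrices for which each of the four
Berger-Wang identities for the minimax joint spectral radii fails: for every norm `ν`, the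
quantities `μ_n^{1/n}` and `η_n^{1/n}` have lower limits at least `1`, whereas the corresponding
quantities for the spectral radius vanish for every `n ≥ 1`. -/
theorem result : ∃ 𝓐 𝓑 : Finset (Matrix (Fin 6) (Fin 6) ℝ), 𝓐.Nonempty ∧ 𝓑.Nonempty ∧
    (∀ ν : Seminorm ℝ (Matrix (Fin 6) (Fin 6) ℝ), (∀ Z, ν Z = 0 → Z = 0) →
      1 ≤ liminfRoot (maxmin ν 𝓐 𝓑) ∧ 1 ≤ liminfRoot (minmax ν 𝓐 𝓑)) ∧
    (∀ n : ℕ, n ≠ 0 → maxmin rho 𝓐 𝓑 n = 0 ∧ minmax rho 𝓐 𝓑 n = 0) ∧
    limsupRoot (maxmin rho 𝓐 𝓑) = 0 ∧ liminfRoot (maxmin rho 𝓐 𝓑) = 0 ∧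
    limsupRoot (minmax rho 𝓐 𝓑) = 0 ∧ liminfRoot (minmax rho 𝓐 𝓑) = 0 := by
  refine ⟨setA, setB, setA_nonempty, setB_nonempty, ?_, ?_, ?_, ?_, ?_, ?_⟩
  · intro ν hν
    obtain ⟨c, hc, h⟩ := seminorm_bound ν hν
    exact ⟨liminfRoot_ge _ c hc (maxmin_ge _ c h), liminfRoot_ge _ c hc (minmax_ge _ c h)⟩
  · exact fun n hn => ⟨maxmin_rho n hn, minmax_rho n hn⟩
  · exact (root_zero _ maxmin_rho).1
  · exact (root_zero _ maxmin_rho).2
  · exact (root_zero _ minmax_rho).1
  · exact (root_zero _ minmax_rho).2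

end Pool.Agent.Results.MP_36f7ac_an.AllFourFail
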